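import Pool.Agent.H24.RD.Targets

/-!
# rem_modules, module AV: averaging over functionals
-/

set_option autoImplicit false

namespace Pool.Agent.H14.RD

open Pool.Agent.H24.RD Finset

theorem sum_half (k : ℕ) : ∑ l ∈ Finset.range k, (((l + 1 : ℕ) : ℝ)) / 2 ^ (l + 1) =
    2 - ((k : ℝ) + 2) / 2 ^ k := by
  induction k with
  | zero => norm_num
  | succ k ih =>
    rw [Finset.sum_range_succ, ih]
    push_cast
    field_simp
    ring

theorem pf_AV : T_AV := by
  classical
  intro G _ c hc p k r hp u b C h1 h2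
  have : NeZero (p ^ k) := ⟨pow_ne_zero _ hp.ne_zero⟩
  set A : ℕ := Fintype.card (Fin r → ZMod (p ^ k)) with hA
  have hA0 : (0 : ℝ) < A := by
    have : 0 < A := Fintype.card_pos
    exact_mod_cast this
  have hp2 : (2 : ℝ) ≤ p := by exact_mod_cast hp.two_le
  let φ : G → (Fin r → ZMod (p ^ k)) →+ ZMod (p ^ k) := fun t =>
    { toFun := fun lam => ∑ i, lam i * u t i
      map_zero' := by simp
      map_add' := by
        intro x y
        simp [add_mul, Finset.sum_add_distrib] }
  have hφ : ∀ t lam, φ t lam = ∑ i, lam i * u t i := fun t lam => rfl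
  have hdiv : ∀ t, Nat.card (φ t).range ∣ p ^ k := by
    intro t
    have h := AddSubgroup.card_addSubgroup_dvd_card (φ t).range
    rwa [Nat.card_zmod] at h
  have hL : ∀ t, ∃ l ≤ k, Nat.card (φ t).range = p ^ l := fun t =>
    (Nat.dvd_prime_pow hp).1 (hdiv t)
  choose L hLk hL using hL
  have hker : ∀ t, Nat.card (φ t).ker * p ^ (L t) = A := by
    intro t
    rw [← hL t, ← AddSubgroup.index_ker, AddSubgroup.card_mul_index, Nat.card_eq_fintype_card]
  have hk0 : ∀ t, (univ.filter fun lam : Fin r → ZMod (p ^ k) => φ t lam = 0).card =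
      Nat.card (φ t).ker := by
    intro t
    rw [Nat.card_eq_fintype_card, Fintype.card_subtype]
    congr
  have hfib : ∀ t a, (univ.filter fun lam : Fin r → ZMod (p ^ k) => φ t lam = a).card ≤
      Nat.card (φ t).ker := by
    intro t a
    rw [← hk0]
    by_cases hne : ∃ lam0, φ t lam0 = a
    · obtain ⟨lam0, h0⟩ := hne
      refine Finset.card_le_card_of_injOn (fun lam => lam - lam0) ?_ ?_
      · intro lam hlam
        have h3 : φ t lam = a := by simpa using hlam
        simp only [coe_filter, mem_univ, true_and, Set.mem_ofPred_eq, map_sub, h3, h0, sub_self]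
      · intro x _ y _ hxy
        exact sub_left_injective hxy
    · have h3 : (univ.filter fun lam : Fin r → ZMod (p ^ k) => φ t lam = a) = ∅ := by
        rw [Finset.filter_eq_empty_iff]
        intro lam _ h
        exact hne ⟨lam, h⟩
      rw [h3]
      simp
  have hz : ∀ t lam, ((p ^ (L t) : ℕ) : ZMod (p ^ k)) * φ t lam = 0 := by
    intro t lam
    rw [← hL t, ← nsmul_eq_mul]
    have h3 : Nat.card (φ t).range • (⟨φ t lam, lam, rfl⟩ : (φ t).range) = 0 :=
      card_nsmul_eq_zero'
    have h4 := congrArg (fun x : (φ t).range => (x : ZMod (p ^ k))) h3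
    simpa using h4
  -- number of functionals with `φ + b ≠ 0`
  obtain ⟨P1, hP1⟩ : ∃ P1 : (Fin r → ZMod (p ^ k)) → G → Prop,
      ∀ lam t, P1 lam t ↔ φ t lam + b t ≠ 0 := ⟨_, fun _ _ => Iff.rfl⟩
  obtain ⟨P2, hP2⟩ : ∃ P2 : (Fin r → ZMod (p ^ k)) → G → Prop,
      ∀ lam t, P2 lam t ↔ φ t lam ≠ 0 := ⟨_, fun _ _ => Iff.rfl⟩
  obtain ⟨nb, hnb⟩ : ∃ nb : G → ℕ, ∀ t, nb t =
      (univ.filter fun lam : Fin r → ZMod (p ^ k) => P1 lam t).card := ⟨_, fun _ => rfl⟩
  obtain ⟨nz, hnz⟩ : ∃ nz : G → ℕ, ∀ t, nz t =
      (univ.filter fun lam : Fin r → ZMod (p ^ k) => P2 lam t).card := ⟨_, fun _ => rfl⟩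
  have hK : ∀ t, (Nat.card (φ t).ker : ℝ) * p ^ (L t) = A := by
    intro t
    exact_mod_cast hker t
  have hc1 : ∀ t, (u t ≠ 0 ∨ b t ≠ 0) →
      (A : ℝ) ≤ nb t + (if 1 ≤ L t then (Nat.card (φ t).ker : ℝ) else 0) := by
    intro t ht
    have h3 : (univ.filter fun lam : Fin r → ZMod (p ^ k) => φ t lam + b t = 0).card + nb t =
        A := by
      have h4 := Finset.card_filter_add_card_filter_not
        (s := (univ : Finset (Fin r → ZMod (p ^ k)))) (p := fun lam => φ t lam + b t = 0)
      have h5 : (univ.filter fun lam : Fin r → ZMod (p ^ k) => P1 lam t) =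
          univ.filter fun lam : Fin r → ZMod (p ^ k) => ¬ (φ t lam + b t = 0) := by
        ext lam
        simp only [mem_filter, hP1, ne_eq]
      rw [hnb, h5, h4, hA, Finset.card_univ]
    by_cases hl : 1 ≤ L t
    · rw [if_pos hl]
      have h4 : (univ.filter fun lam : Fin r → ZMod (p ^ k) => φ t lam + b t = 0) =
          univ.filter fun lam : Fin r → ZMod (p ^ k) => φ t lam = - b t := by
        ext lam
        simp [add_eq_zero_iff_eq_neg]
      have h5 := hfib t (- b t)
      rw [← h4] at h5
      have h6 : (A : ℝ) = ((univ.filter fun lam : Fin r → ZMod (p ^ k) =>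
        φ t lam + b t = 0).card : ℝ) + nb t := by exact_mod_cast h3.symm
      have h7 : ((univ.filter fun lam : Fin r → ZMod (p ^ k) =>
        φ t lam + b t = 0).card : ℝ) ≤ Nat.card (φ t).ker := by exact_mod_cast h5
      linarith
    · rw [if_neg hl, add_zero]
      have hl0 : L t = 0 := by omega
      have h4 : ∀ lam, φ t lam = 0 := by
        intro lam
        have := hz t lam
        rw [hl0] at this
        simpa using this
      have hu : u t = 0 := by
        funext i
        have := h4 (Pi.single i 1)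
        rw [hφ] at this
        simpa [Pi.single_apply] using this
      have hb : b t ≠ 0 := by
        rcases ht with h | h
        · exact absurd hu h
        · exact h
      have h5 : (univ.filter fun lam : Fin r → ZMod (p ^ k) => φ t lam + b t = 0) = ∅ := by
        rw [Finset.filter_eq_empty_iff]
        intro lam _ h
        rw [h4, zero_add] at h
        exact hb h
      rw [h5, Finset.card_empty, zero_add] at h3
      rw [h3]
  -- swap of sums
  have hsw : ∀ (P : (Fin r → ZMod (p ^ k)) → G → Prop) (T : Finset G) (B : ℝ) (Nn : G → ℕ),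
      (∀ t, Nn t = (univ.filter fun lam => P lam t).card) →
      (∀ lam, ∑ t ∈ T.filter (fun t => P lam t), c t ≤ B) →
      ∑ t ∈ T, c t * (Nn t : ℝ) ≤ A * B := by
    intro P T B Nn hNn hB
    simp only [hNn]
    have h3 : ∑ t ∈ T, c t * ((univ.filter fun lam => P lam t).card : ℝ) =
        ∑ lam : Fin r → ZMod (p ^ k), ∑ t ∈ T.filter (fun t => P lam t), c t := by
      have h4 : ∀ t, c t * ((univ.filter fun lam => P lam t).card : ℝ) =
          ∑ lam : Fin r → ZMod (p ^ k), if P lam t then c t else 0 := by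
        intro t
        rw [← Finset.sum_filter, Finset.sum_const, nsmul_eq_mul, mul_comm]
      rw [Finset.sum_congr rfl fun t _ => h4 t, Finset.sum_comm]
      refine Finset.sum_congr rfl fun lam _ => ?_
      rw [← Finset.sum_filter]
    rw [h3]
    refine (Finset.sum_le_sum (g := fun _ => B) fun lam _ => hB lam).trans (le_of_eq ?_)
    rw [Finset.sum_const, Finset.card_univ, nsmul_eq_mul]
  -- first part
  have hQ1 : ∑ t ∈ univ.filter (fun t => u t ≠ 0 ∨ b t ≠ 0), c t * (nb t : ℝ) ≤ A * (k + C) := by
    refine hsw P1 _ _ nb hnb fun lam => ?_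
    refine le_trans (Finset.sum_le_sum_of_subset_of_nonneg ?_ fun t _ _ => hc t) (h2 lam)
    intro t ht
    rw [mem_filter] at ht ⊢
    exact ⟨mem_univ _, (hP1 _ _).1 ht.2⟩
  -- the levels
  have hS : ∀ l, 1 ≤ l → l ≤ k → ∑ t ∈ univ.filter (fun t => L t = l), c t ≤ 2 * l := by
    intro l hl hlk
    have h3 : ∑ t ∈ univ.filter (fun t => L t = l), c t * (nz t : ℝ) ≤ A * l := by
      refine hsw P2 _ _ nz hnz fun lam => ?_
      refine le_trans (Finset.sum_le_sum_of_subset_of_nonneg ?_ fun t _ _ => hc t) (h1 lam l hlk)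
      intro t ht
      rw [mem_filter, mem_filter] at ht
      rw [mem_filter]
      refine ⟨mem_univ _, (hP2 _ _).1 ht.2, ?_⟩
      have h4 := hz t lam
      rw [ht.1.2] at h4
      exact h4
    have h4 : ∀ t ∈ univ.filter (fun t => L t = l), (A : ℝ) * c t ≤ 2 * (c t * (nz t : ℝ)) := by
      intro t ht
      have hLt : L t = l := (mem_filter.1 ht).2
      have h5 : (univ.filter fun lam : Fin r → ZMod (p ^ k) => φ t lam = 0).card + nz t = A := by
        have h4 := Finset.card_filter_add_card_filter_not
          (s := (univ : Finset (Fin r → ZMod (p ^ k)))) (p := fun lam => φ t lam = 0)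
        have h5 : (univ.filter fun lam : Fin r → ZMod (p ^ k) => P2 lam t) =
            univ.filter fun lam : Fin r → ZMod (p ^ k) => ¬ (φ t lam = 0) := by
          ext lam
          simp only [mem_filter, hP2, ne_eq]
        rw [hnz, h5, h4, hA, Finset.card_univ]
      rw [hk0] at h5
      have h6 : (Nat.card (φ t).ker : ℝ) + nz t = A := by exact_mod_cast h5
      have h7 := hK t
      have h8 : (2 : ℝ) ≤ (p : ℝ) ^ (L t) := by
        rw [hLt]
        calc (2 : ℝ) ≤ p := hp2
          _ = (p : ℝ) ^ 1 := (pow_one _).symm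
          _ ≤ (p : ℝ) ^ l := pow_le_pow_right₀ (by linarith) hl
      have h9 : (0 : ℝ) ≤ Nat.card (φ t).ker := Nat.cast_nonneg _
      have h10 : (A : ℝ) ≤ 2 * nz t := by nlinarith
      have := mul_le_mul_of_nonneg_left h10 (hc t)
      linarith
    have h5 : (A : ℝ) * ∑ t ∈ univ.filter (fun t => L t = l), c t ≤ A * (2 * l) := by
      rw [Finset.mul_sum]
      refine (Finset.sum_le_sum h4).trans ?_
      rw [← Finset.mul_sum]
      linarith
    exact le_of_mul_le_mul_left h5 hA0
  -- second part
  have hQ2 : ∑ t ∈ univ.filter (fun t => u t ≠ 0 ∨ b t ≠ 0),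
      c t * (if 1 ≤ L t then (Nat.card (φ t).ker : ℝ) else 0) ≤ A * 4 := by
    have h3 : ∀ t, (if 1 ≤ L t then (Nat.card (φ t).ker : ℝ) else 0) =
        ∑ l ∈ Finset.range k, if L t = l + 1 then (A : ℝ) / p ^ (l + 1) else 0 := by
      intro t
      by_cases hl : 1 ≤ L t
      · rw [if_pos hl, Finset.sum_eq_single (L t - 1)]
        · rw [if_pos (by omega), show L t - 1 + 1 = L t by omega, ← hK t]
          have : (0 : ℝ) < (p : ℝ) ^ (L t) := by positivity
          field_simp
        · intro l _ hne
          rw [if_neg (by omega)]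
        · intro hn
          rw [Finset.mem_range] at hn
          have := hLk t
          omega
      · rw [if_neg hl, Finset.sum_eq_zero]
        intro l _
        rw [if_neg (by omega)]
    calc ∑ t ∈ univ.filter (fun t => u t ≠ 0 ∨ b t ≠ 0),
          c t * (if 1 ≤ L t then (Nat.card (φ t).ker : ℝ) else 0)
        ≤ ∑ t, c t * (if 1 ≤ L t then (Nat.card (φ t).ker : ℝ) else 0) := by
          refine Finset.sum_le_sum_of_subset_of_nonneg (Finset.filter_subset _ _) fun t _ _ => ?_
          refine mul_nonneg (hc t) ?_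
          split_ifs
          · exact Nat.cast_nonneg _
          · exact le_rfl
      _ = ∑ t, ∑ l ∈ Finset.range k, if L t = l + 1 then (A : ℝ) / p ^ (l + 1) * c t else 0 := by
          refine Finset.sum_congr rfl fun t _ => ?_
          rw [h3, Finset.mul_sum]
          refine Finset.sum_congr rfl fun l _ => ?_
          split_ifs
          · ring
          · ring
      _ = ∑ l ∈ Finset.range k, (A : ℝ) / p ^ (l + 1) *
            ∑ t ∈ univ.filter (fun t => L t = l + 1), c t := by
          rw [Finset.sum_comm]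
          refine Finset.sum_congr rfl fun l _ => ?_
          rw [← Finset.sum_filter, Finset.mul_sum]
      _ ≤ ∑ l ∈ Finset.range k, (2 * A) * ((((l + 1 : ℕ) : ℝ)) / 2 ^ (l + 1)) := by
          refine Finset.sum_le_sum fun l hl => ?_
          have h4 := hS (l + 1) (by omega) (by
            have := Finset.mem_range.1 hl
            omega)
          have h5 : (2 : ℝ) ^ (l + 1) ≤ (p : ℝ) ^ (l + 1) := pow_le_pow_left₀ (by norm_num) hp2 _
          have h6 : (A : ℝ) / p ^ (l + 1) ≤ A / 2 ^ (l + 1) :=
            div_le_div_of_nonneg_left hA0.le (by positivity) h5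
          calc (A : ℝ) / p ^ (l + 1) * ∑ t ∈ univ.filter (fun t => L t = l + 1), c t
              ≤ A / 2 ^ (l + 1) * (2 * ((l + 1 : ℕ) : ℝ)) := by
                refine mul_le_mul h6 h4 (Finset.sum_nonneg fun t _ => hc t) (by positivity)
            _ = _ := by ring
      _ = (2 * A) * (2 - ((k : ℝ) + 2) / 2 ^ k) := by
          rw [← Finset.mul_sum, sum_half]
      _ ≤ A * 4 := by
          have h4 : 0 ≤ ((k : ℝ) + 2) / 2 ^ k := by positivity
          nlinarith
  -- conclusion
  have hfin : (A : ℝ) * ∑ t ∈ univ.filter (fun t => u t ≠ 0 ∨ b t ≠ 0), c t ≤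
      A * (k + C + 4) := by
    rw [Finset.mul_sum]
    calc ∑ t ∈ univ.filter (fun t => u t ≠ 0 ∨ b t ≠ 0), (A : ℝ) * c t
        ≤ ∑ t ∈ univ.filter (fun t => u t ≠ 0 ∨ b t ≠ 0), (c t * (nb t : ℝ) +
            c t * (if 1 ≤ L t then (Nat.card (φ t).ker : ℝ) else 0)) := by
          refine Finset.sum_le_sum fun t ht => ?_
          have h3 := mul_le_mul_of_nonneg_left (hc1 t (mem_filter.1 ht).2) (hc t)
          linarith
      _ ≤ A * (k + C) + A * 4 := by
          rw [Finset.sum_add_distrib]
          exact add_le_add hQ1 hQ2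
      _ = _ := by ring
  exact le_of_mul_le_mul_left hfin hA0

end Pool.Agent.H14.RD
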