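import Pool.Agent.H24.RD.Targets

/-!
# rem_modules, module TR: traces from fields which contain roots of unity of order a prime power
-/

set_option autoImplicit false

namespace Pool.Agent.H14.RD

open Pool.Agent.H24.RD Finset Polynomial Module

theorem nextCoeff_cyc {p : ℕ} (hp : p.Prime) (s : ℕ) :
    (cyclotomic (p ^ (s + 1)) ℚ).nextCoeff = if s = 0 then 1 else 0 := by
  have hp2 := hp.two_le
  have hd : (cyclotomic (p ^ (s + 1)) ℚ).natDegree = p ^ s * (p - 1) := by
    rw [natDegree_cyclotomic, Nat.totient_prime_pow_succ hp]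
  have hps : 0 < p ^ s := pow_pos hp.pos _
  have hpos : 0 < p ^ s * (p - 1) := Nat.mul_pos hps (by omega)
  rw [nextCoeff_of_natDegree_pos (by rw [hd]; exact hpos), hd,
    cyclotomic_prime_pow_eq_geom_sum hp, finsetSum_coeff]
  have h1 : ∀ i, ((X ^ p ^ s) ^ i : ℚ[X]).coeff (p ^ s * (p - 1) - 1) =
      if p ^ s * (p - 1) - 1 = p ^ s * i then 1 else 0 := by
    intro i
    rw [← pow_mul, coeff_X_pow]
  simp only [h1]
  by_cases hs : s = 0
  · subst hs
    rw [if_pos rfl]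
    simp only [pow_zero, one_mul]
    rw [Finset.sum_ite_eq]
    rw [if_pos (Finset.mem_range.2 (by omega))]
  · rw [if_neg hs]
    refine Finset.sum_eq_zero fun i _ => ?_
    rw [if_neg]
    intro h
    have h2 : p ∣ p ^ s := dvd_pow_self p hs
    have h3 : p ∣ p ^ s * (p - 1) := h2.mul_right _
    have h4 : p ∣ p ^ s * (p - 1) - 1 := by
      rw [h]
      exact h2.mul_right _
    have h5 : p ∣ 1 := by
      have h6 := Nat.dvd_sub h3 h4
      have h7 : p ^ s * (p - 1) - (p ^ s * (p - 1) - 1) = 1 := by omega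
      rwa [h7] at h6
    exact hp.one_lt.ne' (Nat.dvd_one.1 h5)

theorem tr_zeta_pow {K : Type*} [Field K] [NumberField K] {p m : ℕ} (hp : p.Prime)
    [IsCyclotomicExtension {p ^ (m + 1)} ℚ K] {ζ : K} (hζ : IsPrimitiveRoot ζ (p ^ (m + 1)))
    (i : ℕ) : ∃ z : ℤ, Algebra.trace ℚ K (ζ ^ i) = (p : ℚ) ^ m * z := by
  have : NeZero (p ^ (m + 1)) := ⟨(pow_pos hp.pos _).ne'⟩
  have hfin : finrank ℚ K = p ^ m * (p - 1) := by
    rw [IsCyclotomicExtension.finrank K (cyclotomic.irreducible_rat (NeZero.pos (p ^ (m + 1)))),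
      Nat.totient_prime_pow_succ hp]
  have hpow : (ζ ^ i) ^ (p ^ (m + 1)) = 1 := by
    rw [← pow_mul, mul_comm, pow_mul, hζ.pow_eq_one, one_pow]
  obtain ⟨s, hs, hord⟩ := (Nat.dvd_prime_pow hp).1 (orderOf_dvd_of_pow_eq_one hpow)
  have hprim : IsPrimitiveRoot (ζ ^ i) (p ^ s) := by
    rw [← hord]
    exact IsPrimitiveRoot.orderOf _
  rcases Nat.eq_zero_or_pos s with hs0 | hs0
  · subst hs0
    rw [pow_zero, IsPrimitiveRoot.one_right_iff] at hprim
    rw [hprim]
    refine ⟨(p - 1 : ℕ), ?_⟩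
    rw [← map_one (algebraMap ℚ K), Algebra.trace_algebraMap, hfin, nsmul_eq_mul, mul_one]
    push_cast
    rfl
  · obtain ⟨s, rfl⟩ := Nat.exists_eq_succ_of_ne_zero hs0.ne'
    rw [Nat.succ_eq_add_one] at hprim
    rw [trace_eq_finrank_mul_minpoly_nextCoeff,
      ← cyclotomic_eq_minpoly_rat hprim (pow_pos hp.pos _), nextCoeff_cyc hp s]
    by_cases hs1 : s = 0
    · subst hs1
      rw [if_pos rfl]
      have h1 : finrank ℚ (IntermediateField.adjoin ℚ {ζ ^ i}) = p - 1 := by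
        rw [IntermediateField.adjoin.finrank (.of_finite ℚ _),
          ← cyclotomic_eq_minpoly_rat hprim (pow_pos hp.pos _), natDegree_cyclotomic,
          Nat.totient_prime_pow_succ hp]
        simp
      have h2 := Module.finrank_mul_finrank ℚ (IntermediateField.adjoin ℚ {ζ ^ i}) K
      rw [h1, hfin, mul_comm] at h2
      have h3 : finrank (IntermediateField.adjoin ℚ {ζ ^ i}) K = p ^ m :=
        Nat.eq_of_mul_eq_mul_right (by have := hp.two_le; omega) h2
      rw [h3]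
      refine ⟨-1, ?_⟩
      push_cast
      ring
    · rw [if_neg hs1]
      exact ⟨0, by simp⟩

theorem tr_adjoin {K : Type*} [Field K] [NumberField K] {p m : ℕ} (hp : p.Prime)
    [IsCyclotomicExtension {p ^ (m + 1)} ℚ K] {ζ : K} (hζ : IsPrimitiveRoot ζ (p ^ (m + 1)))
    {y : K} (hy : IsIntegral ℤ y) : ∃ z : ℤ, Algebra.trace ℚ K y = (p : ℚ) ^ m * z := by
  have : Fact p.Prime := ⟨hp⟩
  have hI := IsCyclotomicExtension.Rat.isIntegralClosure_adjoin_singleton_of_prime_pow hζ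
  obtain ⟨y', hy'⟩ := hI.isIntegral_iff.1 hy
  have h1 : y ∈ Algebra.adjoin ℤ {ζ} := by
    rw [← hy']
    exact y'.2
  rw [Algebra.adjoin_singleton_eq_range_aeval] at h1
  obtain ⟨P, rfl⟩ := h1
  have h2 : ∀ i, ∃ z : ℤ, Algebra.trace ℚ K (ζ ^ i) = (p : ℚ) ^ m * z := tr_zeta_pow hp hζ
  choose z hz using h2
  refine ⟨∑ i ∈ Finset.range (P.natDegree + 1), P.coeff i * z i, ?_⟩
  change Algebra.trace ℚ K (aeval ζ P) = _
  rw [aeval_eq_sum_range, map_sum]
  push_cast
  rw [Finset.mul_sum]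
  refine Finset.sum_congr rfl fun i _ => ?_
  have h3 : P.coeff i • ζ ^ i = (P.coeff i : ℚ) • ζ ^ i := by
    rw [Algebra.smul_def, Algebra.smul_def]
    simp
  rw [h3, map_smul, hz, smul_eq_mul]
  ring

theorem tr_big {E : Type*} [Field E] [NumberField E] {p m : ℕ} (hp : p.Prime) {ζ : E}
    (hζ : IsPrimitiveRoot ζ (p ^ (m + 1))) {x : E} (hx : IsIntegral ℤ x) :
    ∃ z : ℤ, Algebra.trace ℚ E x = (p : ℚ) ^ m * z := by
  have : NeZero (p ^ (m + 1)) := ⟨(pow_pos hp.pos _).ne'⟩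
  have hcyc : IsCyclotomicExtension {p ^ (m + 1)} ℚ (IntermediateField.adjoin ℚ {ζ}) :=
    hζ.intermediateField_adjoin_isCyclotomicExtension ℚ
  have hζ' : IsPrimitiveRoot (IntermediateField.AdjoinSimple.gen ℚ ζ) (p ^ (m + 1)) := by
    refine IsPrimitiveRoot.of_map_of_injective (f := algebraMap (IntermediateField.adjoin ℚ {ζ}) E)
      ?_ (algebraMap (IntermediateField.adjoin ℚ {ζ}) E).injective
    rw [IntermediateField.AdjoinSimple.algebraMap_gen]
    exact hζ
  obtain ⟨z, hz⟩ := tr_adjoin (K := IntermediateField.adjoin ℚ {ζ}) hp hζ'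
    (y := Algebra.trace (IntermediateField.adjoin ℚ {ζ}) E x) (Algebra.isIntegral_trace hx)
  refine ⟨z, ?_⟩
  rw [← hz, Algebra.trace_trace]

theorem dual_den (F : Type*) [Field F] [NumberField F] : ∃ D : ℕ, 0 < D ∧ ∀ u : F,
    (∀ a : F, IsIntegral ℤ a → ∃ z : ℤ, Algebra.trace ℚ F (a * u) = z) →
    IsIntegral ℤ ((D : F) * u) := by
  classical
  set b := NumberField.integralBasis F with hb
  have h1 : ∀ i, ∃ d : ℤ, d ≠ 0 ∧ IsIntegral ℤ (d • b.traceDual i) := by
    intro i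
    have h2 : IsAlgebraic ℤ (b.traceDual i) := by
      rw [IsFractionRing.isAlgebraic_iff ℤ ℚ F]
      exact (Algebra.IsAlgebraic.isAlgebraic (b.traceDual i))
    exact h2.exists_integral_multiple
  choose d hd0 hd using h1
  refine ⟨∏ i, (d i).natAbs, Finset.prod_pos fun i _ => Int.natAbs_pos.2 (hd0 i), ?_⟩
  intro u hu
  have h3 : ∀ i, IsIntegral ℤ (((∏ i, (d i).natAbs : ℕ) : F) * b.traceDual i) := by
    intro i
    obtain ⟨k, hk⟩ : d i ∣ ((∏ i, (d i).natAbs : ℕ) : ℤ) := by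
      have h4 : (d i).natAbs ∣ ∏ i, (d i).natAbs := Finset.dvd_prod_of_mem _ (Finset.mem_univ i)
      exact Int.natAbs_dvd.1 (by exact_mod_cast h4)
    have h5 : ((∏ i, (d i).natAbs : ℕ) : F) * b.traceDual i = k • (d i • b.traceDual i) := by
      rw [← mul_smul, mul_comm k, ← hk, Algebra.smul_def]
      simp
    rw [h5]
    exact (hd i).smul k
  have h6 : u = ∑ i, (Algebra.trace ℚ F (b i * u)) • b.traceDual i := by
    conv_lhs => rw [← b.traceDual.sum_repr u]
    refine Finset.sum_congr rfl fun i _ => ?_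
    rw [Basis.traceDual_repr_apply, Algebra.traceForm_apply, mul_comm]
  have hbi : ∀ i, IsIntegral ℤ (b i) := by
    intro i
    rw [hb, NumberField.integralBasis_apply]
    exact NumberField.RingOfIntegers.isIntegral_coe _
  have h7 : ∀ i, ∃ z : ℤ, Algebra.trace ℚ F (b i * u) = z := fun i => hu _ (hbi i)
  choose z hz using h7
  rw [h6, Finset.mul_sum]
  refine IsIntegral.sum _ fun i _ => ?_
  rw [hz]
  have h8 : ((∏ i, (d i).natAbs : ℕ) : F) * ((z i : ℚ) • b.traceDual i) =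
      z i • (((∏ i, (d i).natAbs : ℕ) : F) * b.traceDual i) := by
    rw [Algebra.smul_def, Algebra.smul_def]
    simp
    ring
  rw [h8]
  exact (h3 i).smul _

theorem pf_TR : T_TR := by
  intro F _ _
  obtain ⟨D, hD, h⟩ := dual_den F
  refine ⟨D, hD, ?_⟩
  intro E _ _ _ _ p n hp ζ hζ hn c hc
  obtain ⟨m, rfl⟩ : ∃ m, n = m + 1 := ⟨n - 1, by omega⟩
  have hp0 : (p : F) ≠ 0 := by exact_mod_cast hp.ne_zero
  have hpq : (p : ℚ) ≠ 0 := by exact_mod_cast hp.ne_zero
  rw [Nat.add_sub_cancel]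
  set u : F := Algebra.trace F E c / (p : F) ^ m with hu
  refine ⟨(D : F) * u, h u ?_, ?_⟩
  · intro a ha
    have h1 : IsIntegral ℤ (a • c) := by
      rw [Algebra.smul_def]
      exact (ha.algebraMap).mul hc
    obtain ⟨z, hz⟩ := tr_big hp hζ h1
    refine ⟨z, ?_⟩
    have h2 : Algebra.trace ℚ F (Algebra.trace F E (a • c)) = (p : ℚ) ^ m * z := by
      rw [Algebra.trace_trace, hz]
    have h3 : Algebra.trace F E (a • c) = ((p : ℚ) ^ m) • (a * u) := by
      rw [map_smul, smul_eq_mul, Algebra.smul_def, hu]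
      simp only [map_pow, map_natCast]
      field_simp
    rw [h3, map_smul, smul_eq_mul] at h2
    exact mul_left_cancel₀ (pow_ne_zero m hpq) h2
  · rw [hu]
    field_simp

end Pool.Agent.H14.RD
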