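import Pool.Agent.H79.RD.Targets

/-!
# rdh_modules, modules UB and UN: union bounds
-/

namespace Pool.Agent.H14.RD

open Finset Pool.Agent.H79.RD

theorem card_fib {I : Type} [Fintype I] [DecidableEq I] {T : ℕ} (Q : Finset I)
    (S : Finset (Fin T)) :
    ((Finset.univ : Finset (I → Fin T)).filter (fun ω => ∀ i ∈ Q, ω i ∈ S)).card * T ^ Q.card =
      S.card ^ Q.card * T ^ Fintype.card I := by
  have h1 : (Finset.univ : Finset (I → Fin T)).filter (fun ω => ∀ i ∈ Q, ω i ∈ S) =
      Fintype.piFinset (fun i => if i ∈ Q then S else Finset.univ) := by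
    ext ω
    simp only [mem_filter, mem_univ, true_and, Fintype.mem_piFinset]
    refine forall_congr' fun i => ?_
    by_cases hi : i ∈ Q
    · simp [hi]
    · simp [hi]
  rw [h1, Fintype.card_piFinset]
  have h2 : ∀ i, (if i ∈ Q then S else (Finset.univ : Finset (Fin T))).card =
      if i ∈ Q then S.card else T := by
    intro i
    split_ifs
    · rfl
    · simp
  simp only [h2]
  rw [Finset.prod_ite, Finset.prod_const, Finset.prod_const, Finset.filter_mem_eq_inter,
    Finset.univ_inter, mul_assoc, ← pow_add]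
  congr 2
  have h3 : (Finset.univ.filter fun i => i ∉ Q) = Qᶜ := by
    ext i
    simp
  rw [h3, Finset.card_compl]
  have := Finset.card_le_univ Q
  omega

open Classical in
theorem union_fib {I C : Type} [Fintype I] [DecidableEq I] {T r s : ℕ} (cfg : Finset C)
    (Q : C → Finset I) (S : Finset (Fin T)) (hS : S.card = s) (hQ : ∀ c ∈ cfg, (Q c).card = r)
    (P : (I → Fin T) → Prop) (hP : ∀ ω, P ω → ∃ c ∈ cfg, ∀ i ∈ Q c, ω i ∈ S) :
    cnt T P * T ^ r ≤ cfg.card * (s ^ r * T ^ Fintype.card I) := by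
  have h1 : (Finset.univ : Finset (I → Fin T)).filter P ⊆
      cfg.biUnion fun c => (Finset.univ : Finset (I → Fin T)).filter (fun ω => ∀ i ∈ Q c, ω i ∈ S) := by
    intro ω hω
    rw [mem_filter] at hω
    obtain ⟨c, hc, h⟩ := hP ω hω.2
    rw [mem_biUnion]
    exact ⟨c, hc, by simpa using h⟩
  have h2 : cnt T P ≤ ∑ c ∈ cfg,
      ((Finset.univ : Finset (I → Fin T)).filter (fun ω => ∀ i ∈ Q c, ω i ∈ S)).card := by
    unfold cnt
    refine (Finset.card_le_card h1).trans (Finset.card_biUnion_le.trans (le_of_eq ?_))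
    rfl
  refine (Nat.mul_le_mul_right _ h2).trans ?_
  rw [Finset.sum_mul]
  refine (Finset.sum_le_sum (g := fun _ => s ^ r * T ^ Fintype.card I) ?_).trans ?_
  · intro c hc
    have h3 := card_fib (Q c) S
    rw [hQ c hc, hS] at h3
    exact h3.le
  · rw [Finset.sum_const, smul_eq_mul]

theorem pf_UB : T_UB := by
  classical
  intro I C _ _ T r cfg π hT
  have h := union_fib (I := I) (T := T) (r := r) (s := 1)
    (cfg.filter fun c => Function.Injective (π c))
    (fun c => Finset.univ.image (π c)) {⟨0, hT⟩} (Finset.card_singleton _)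
    (fun c hc => by
      rw [mem_filter] at hc
      rw [Finset.card_image_of_injective _ hc.2, Finset.card_univ, Fintype.card_fin])
    (fun ω => ∃ c ∈ cfg, Function.Injective (π c) ∧ ∀ j, (ω (π c j)).val = 0)
    (fun ω hω => by
      obtain ⟨c, hc, hinj, h0⟩ := hω
      refine ⟨c, mem_filter.2 ⟨hc, hinj⟩, fun i hi => ?_⟩
      obtain ⟨j, -, rfl⟩ := mem_image.1 hi
      rw [mem_singleton]
      exact Fin.ext (h0 j))
  refine h.trans ?_
  rw [one_pow, one_mul]
  exact Nat.mul_le_mul_right _ (Finset.card_filter_le _ _)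

theorem pf_UN : T_UN := by
  classical
  intro N b k T hT
  have h := union_fib (I := Idx N b k) (T := T) (r := N ^ k) (s := T - 1)
    (Finset.univ : Finset (Fin N → Fin b → Bool))
    (fun ζ => Finset.univ.image (fun σ : Fin k → Fin N => ((σ, ζ ∘ σ) : Idx N b k)))
    (Finset.univ.erase ⟨0, hT⟩)
    (by rw [Finset.card_erase_of_mem (Finset.mem_univ _), Finset.card_univ, Fintype.card_fin])
    (fun ζ _ => by
      rw [Finset.card_image_of_injective _ (fun σ σ' h => (Prod.ext_iff.1 h).1),
        Finset.card_univ, Fintype.card_fun, Fintype.card_fin, Fintype.card_fin])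
    (fun ω => ¬ PU (forbOf ω))
    (fun ω hω => by
      unfold PU at hω
      push Not at hω
      obtain ⟨ζ, hζ⟩ := hω
      refine ⟨ζ, mem_univ _, fun i hi => ?_⟩
      obtain ⟨σ, -, rfl⟩ := mem_image.1 hi
      rw [mem_erase]
      refine ⟨fun h0 => hζ σ ?_, mem_univ _⟩
      unfold forbOf
      rw [mem_filter]
      refine ⟨mem_univ _, ?_⟩
      rw [h0])
  have hc : (Finset.univ : Finset (Fin N → Fin b → Bool)).card = 2 ^ (b * N) := by
    rw [Finset.card_univ, Fintype.card_fun, Fintype.card_fun, Fintype.card_bool,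
      Fintype.card_fin, Fintype.card_fin, ← pow_mul]
  rw [hc, ← mul_assoc] at h
  exact h

end Pool.Agent.H14.RD
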