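import Pool.Agent.H79.RD.Targets

/-!
# rdh_modules, modules XI and AC: existence of forbidden patterns, activation of one block
-/

namespace Pool.Agent.H14.RD

open Finset Pool.Agent.H79.RD

theorem xi_aux {u B M K : ℕ} (hK : 0 < K) (h : u * K ≤ B * M) (h1 : 4 * B ≤ K) : 4 * u ≤ M := by
  have h2 : (4 * u) * K ≤ M * K := by
    calc (4 * u) * K = 4 * (u * K) := by ring
      _ ≤ 4 * (B * M) := Nat.mul_le_mul_left _ h
      _ = (4 * B) * M := by ring
      _ ≤ K * M := Nat.mul_le_mul_right _ h1
      _ = M * K := by ring
  exact Nat.le_of_mul_le_mul_right h2 hK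

theorem pf_XI : T_UN → T_EX → T_NB → T_XI := by
  classical
  intro hUN hEX hNB N b k T a g R h m hT hR h1 h2 h3
  have hM : 0 < T ^ Fintype.card (Idx N b k) := pow_pos hT _
  have u1 := xi_aux (pow_pos hT _) (hUN N b k T hT) (by
    rw [← mul_assoc]
    exact h1)
  have e1 := xi_aux (pow_pos hT _) (hEX N b k T a g R h hT hR) (by
    rw [← mul_assoc]
    exact h2)
  have n1 := xi_aux (pow_pos hT _) (hNB N b k T a m R hT) (by
    rw [← mul_assoc, ← mul_assoc]
    rw [← mul_assoc] at h3
    exact h3)
  by_contra hcon
  push Not at hcon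
  have h4 : (Finset.univ : Finset (Idx N b k → Fin T)) ⊆
      ((Finset.univ.filter fun ω => ¬ PU (forbOf ω)) ∪
        (Finset.univ.filter fun ω => ¬ PE (forbOf ω) a g R)) ∪
        (Finset.univ.filter fun ω => ¬ PN (forbOf ω) a m R) := by
    intro ω _
    rw [mem_union, mem_union, mem_filter, mem_filter, mem_filter]
    by_cases c1 : PU (forbOf ω)
    · by_cases c2 : PE (forbOf ω) a g R
      · exact Or.inr ⟨mem_univ _, hcon _ c1 c2⟩
      · exact Or.inl (Or.inr ⟨mem_univ _, c2⟩)
    · exact Or.inl (Or.inl ⟨mem_univ _, c1⟩)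
  have h5 := Finset.card_le_card h4
  have h6 : (Finset.univ : Finset (Idx N b k → Fin T)).card = T ^ Fintype.card (Idx N b k) := by
    rw [Finset.card_univ, Fintype.card_fun, Fintype.card_fin]
  have h7 := Finset.card_union_le ((Finset.univ.filter fun ω : Idx N b k → Fin T => ¬ PU (forbOf ω)) ∪
        (Finset.univ.filter fun ω => ¬ PE (forbOf ω) a g R))
        (Finset.univ.filter fun ω => ¬ PN (forbOf ω) a m R)
  have h8 := Finset.card_union_le (Finset.univ.filter fun ω : Idx N b k → Fin T => ¬ PU (forbOf ω))
        (Finset.univ.filter fun ω => ¬ PE (forbOf ω) a g R)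
  unfold cnt at u1 e1 n1
  have cu : (Finset.univ.filter fun ω : Idx N b k → Fin T => ¬ PU (forbOf ω)).card =
    (@Finset.filter _ (fun ω : Idx N b k → Fin T => ¬ PU (forbOf ω))
      (fun a => Classical.propDecidable _) Finset.univ).card := by
    congr
  have ce : (Finset.univ.filter fun ω : Idx N b k → Fin T => ¬ PE (forbOf ω) a g R).card =
    (@Finset.filter _ (fun ω : Idx N b k → Fin T => ¬ PE (forbOf ω) a g R)
      (fun a => Classical.propDecidable _) Finset.univ).card := by
    congr
  have cn : (Finset.univ.filter fun ω : Idx N b k → Fin T => ¬ PN (forbOf ω) a m R).card =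
    (@Finset.filter _ (fun ω : Idx N b k → Fin T => ¬ PN (forbOf ω) a m R)
      (fun a => Classical.propDecidable _) Finset.univ).card := by
    congr
  omega

theorem prs_length {N b k : ℕ} (ζ0 : Fin N → Fin b → Bool) (l : List (Ev N b k)) :
    (prs ζ0 l).length = l.length := by
  induction l with
  | nil => rfl
  | cons e l ih => simp [prs, ih]

theorem pf_AC : T_AC := by
  classical
  intro N b k a g R m p Forb A ζ0 ζ evs i U hPE hPN hpm hA hH hSat hi hcard hU
  obtain ⟨hcur, hev, hforb, hnd, hnr⟩ := hH
  set A' := Function.update A p (insert i (A p)) with hA'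
  have hA'p : A' p = insert i (A p) := by rw [hA', Function.update_self]
  have hAsub : ∀ q, A q ⊆ A' q := by
    intro q
    by_cases h : q = p
    · subst h
      rw [hA'p]
      exact Finset.subset_insert _ _
    · rw [hA', Function.update_of_ne h]
  by_cases hS : Sat Forb ζ (insert i (A p))
  · exact ⟨ζ, evs, fun _ _ => rfl, fun _ _ => rfl, ⟨hcur, fun e he => ⟨(hev e he).1,
      fun j => hAsub _ ((hev e he).2 j)⟩, hforb, hnd, hnr⟩, hS⟩
  · unfold Sat at hS
    push Not at hS
    obtain ⟨s, hs, hsF⟩ := hS
    have hsi : ∃ j, s j = i := by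
      by_contra hcon
      push Not at hcon
      exact hSat s (fun j => by
        rcases mem_insert.1 (hs j) with h | h
        · exact absurd h (hcon j)
        · exact h) hsF
    have hlen : evs.length < R := hPN A hA ζ0 evs
      (fun e he => ⟨lt_of_le_of_lt (hev e he).1 hpm, (hev e he).2⟩) hforb hnd
    have hE : R ≤ (allowed Forb ζ (A p) i U).card := hPE ζ (A p) i U (hA p) hi hU
    set X : Finset (Fin b → Bool) := Finset.univ.filter
      (fun x => ∃ π ∈ prs ζ0 evs, π.2 = Function.update ζ i x ∘ π.1) with hX
    have hXc : X.card ≤ evs.length := by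
      have h1 : ∀ x ∈ X, ∃ π ∈ prs ζ0 evs, π.2 = Function.update ζ i x ∘ π.1 := fun x hx =>
        (mem_filter.1 hx).2
      have : Nonempty (Idx N b k) := ⟨(s, ζ ∘ s)⟩
      choose! f hf1 hf2 using h1
      have h2 : X.card ≤ (prs ζ0 evs).toFinset.card := by
        refine Finset.card_le_card_of_injOn f (fun x hx => ?_) ?_
        · rw [Finset.mem_coe, List.mem_toFinset]
          exact hf1 x hx
        · intro x hx x' hx' hxx
          have e1 := hf2 x hx
          have e2 := hf2 x' hx'
          by_cases hj : ∃ j, (f x).1 j = i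
          · obtain ⟨j, hj⟩ := hj
            have g1 := congrFun e1 j
            have g2 := congrFun e2 j
            rw [← hxx] at g2
            rw [Function.comp_apply, hj, Function.update_self] at g1 g2
            exact g1.symm.trans g2
          · push Not at hj
            exfalso
            refine hnr (f x) (hf1 x hx) ?_
            rw [e1]
            funext j
            rw [Function.comp_apply, Function.comp_apply, Function.update_of_ne (hj j)]
      refine h2.trans ((List.toFinset_card_le _).trans ?_)
      rw [prs_length]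
    obtain ⟨x, hxE, hxX⟩ := Finset.exists_mem_notMem_of_card_lt_card
      (show X.card < (allowed Forb ζ (A p) i U).card by omega)
    have hxA : (∀ j, j ∉ U → x j = ζ i j) ∧ ∀ σ : Fin k → Fin N, (∀ j, σ j ∈ insert i (A p)) →
        (∃ j, σ j = i) → (σ, Function.update ζ i x ∘ σ) ∉ Forb := by
      unfold allowed at hxE
      exact (mem_filter.1 hxE).2
    have hxX' : ∀ π ∈ prs ζ0 evs, π.2 ≠ Function.update ζ i x ∘ π.1 := by
      intro π hπ h
      exact hxX (mem_filter.2 ⟨mem_univ _, π, hπ, h⟩)
    have hprs : prs ζ0 ((⟨p, i, x, s⟩ : Ev N b k) :: evs) = (s, ζ ∘ s) :: prs ζ0 evs := by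
      show (s, cur ζ0 evs ∘ s) :: prs ζ0 evs = _
      rw [hcur]
    refine ⟨Function.update ζ i x, ⟨p, i, x, s⟩ :: evs, fun i' hi' => Function.update_of_ne hi' _ _,
      ?_, ⟨?_, ?_, ?_, ?_, ?_⟩, ?_⟩
    · intro j hj
      rw [Function.update_self]
      exact hxA.1 j hj
    · show Function.update (cur ζ0 evs) i x = _
      rw [hcur]
    · intro e he
      rcases List.mem_cons.1 he with rfl | he
      · refine ⟨le_rfl, fun j => ?_⟩
        show s j ∈ A' p
        rw [hA'p]
        exact hs j
      · exact ⟨(hev e he).1, fun j => hAsub _ ((hev e he).2 j)⟩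
    · intro π hπ
      rw [hprs] at hπ
      rcases List.mem_cons.1 hπ with rfl | hπ
      · exact hsF
      · exact hforb π hπ
    · rw [hprs, List.nodup_cons]
      exact ⟨fun h => hnr _ h rfl, hnd⟩
    · intro π hπ
      rw [hprs] at hπ
      rcases List.mem_cons.1 hπ with rfl | hπ
      · intro h
        refine hxA.2 s hs hsi ?_
        have h' : ζ ∘ s = Function.update ζ i x ∘ s := h
        rw [← h']
        exact hsF
      · exact hxX' π hπ
    · intro σ hσ
      by_cases hj : ∃ j, σ j = i
      · exact hxA.2 σ hσ hj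
      · push Not at hj
        have h1 : Function.update ζ i x ∘ σ = ζ ∘ σ := by
          funext j
          rw [Function.comp_apply, Function.comp_apply, Function.update_of_ne (hj j)]
        rw [h1]
        refine hSat σ fun j => ?_
        rcases mem_insert.1 (hσ j) with h | h
        · exact absurd h (hj j)
        · exact h

end Pool.Agent.H14.RD
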